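import Pool.Agent.W495.TB.Stms
import Pool.Agent.W417.TA.Weil
import Pool.Agent.W976.TA.Push

/-!
# Split Weil classes, in terms of half systems
-/

set_option autoImplicit false
set_option linter.unusedSectionVars false

namespace Pool.Agent.W177.TB

open NumberField Pool.Agent.H204R3.CM Pool.Agent.W547.KB Pool.Agent.W547.LD Module
  Pool.Agent.W495.TA Pool.Agent.W495.TB Pool.Agent.W417.TA Pool.Agent.W976.TA
open scoped TensorProduct

noncomputable section

theorem weilG : S_weilG := by
  intro hhonda hval hru hbasis hpull p _ ν Ω _ _ L _ _ _ _ j jO N hN Q _ x hx hst _ hcardO hb1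
  classical
  have hex : ∀ q, ∃ (a : ℕ) (π : fld (x q)), 0 < a ∧
      IsFrobenius p ν (pairOf j (x q) (hx q)) a π := fun q => hhonda hval p ν L j (x q) (hx q)
  choose a π ha hπ using hex
  let Z : RedAV p ν :=
    { X := prodOf j x hx
      a := ∏ q, a q
      pos := Finset.prod_pos fun q _ => ha q
      π := fun q => (show (pairOf j (x q) (hx q)).E from π q) ^
        (∏ q' ∈ Finset.univ.erase q, a q')
      frob := fun q => by
        have h1 := isFrob_pow (hπ q) (∏ q' ∈ Finset.univ.erase q, a q')
        have h2 : a q * ∏ q' ∈ Finset.univ.erase q, a q' = ∏ q, a q :=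
          Finset.mul_prod_erase _ _ (Finset.mem_univ q)
        rw [h2] at h1
        exact h1 }
  set n := Fintype.card (Orb N x) with hn
  let e : Orb N x ≃ Fin n := Fintype.equivFin _
  let J : Fin n → Wt Z.X L := fun k => orbWt j N x hx (e.symm k)
  have hJ : Alg Ω Z (Fin n) (monoO jO J) := by
    refine monoO_mem_of_trO jO J fun α => ?_
    exact Alg.weil (Ω := Ω) (Y := Z) hcardO (trForm α J)
      (isWeilClass_trForm j N x hx hN hst e (by omega) hb1 α) (trO jO α J)
      (fun v => trO_tmul jO α J v)
  let J' : Orb N x → Wt Z.X L := fun k => orbWt j N x hx k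
  have hJ' : Alg Ω Z _ (monoO jO J') := by
    have h1 := monoO_reindex jO e.symm J'
    rw [← h1]
    exact Alg.reindex _ _ hJ
  have h3 := @hpull hval hru hbasis p _ ν Ω _ _ L _ _ _ _ j jO Z (big_prodOf j x hx) _ _ _ J'
    (orbWt_injective j N x hx) hJ'
  have h4 : (fun k => tf p ν j (St j (J' k))) = fun k : Orb N x => tf p ν j k.2.1 := by
    funext k
    have h5 : St j (J' k) = k.2.1 := St_orbWt j N x hx k
    rw [h5]
  rw [h4] at h3
  exact @h3

end

end Pool.Agent.W177.TB
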